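import Pool.Agent.L7h99.SC.Stm
import Pool.Agent.Helper717.LT.P_const_final

set_option autoImplicit false

/-!
# Project SC: the part [BCO]
-/

open MeasureTheory Set Filter Topology Real
open scoped ENNReal

namespace Pool.Agent.L7h65.SC

open Pool.Agent.L7h99.LS Pool.Agent.L7h99.SC

/-- [BCO] -/
theorem t_BCO : S_BCO := by
  intro m η h0 h1
  have hc := LTd.const_final m
  set t : ℝ := ((m : ℝ) + 1) / 2 with ht
  have htp : 0 < t := by rw [ht]; positivity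
  have hJ := LTd.cf_JJ m t ht
  have hJ0 : 0 ≤ LTd.JJ ((m : ℝ) / 2) (3 / 2) * (π ^ 2 / 4 : ℝ) ^ ((3 / 2 : ℝ) - 1) := by
    rw [hJ]
    have := Real.Gamma_pos_of_pos (show 0 < t + 1 by positivity)
    positivity
  have hη : 0 < 1 - η := by linarith
  have e1 : (π ^ 2 / 3 * (1 - η)) ^ ((3 / 2 : ℝ) - 1) =
      (π ^ 2 / 4) ^ ((3 / 2 : ℝ) - 1) * (4 / 3 * (1 - η)) ^ ((3 / 2 : ℝ) - 1) := by
    rw [← Real.mul_rpow (by positivity) (by positivity)]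
    congr 1
    ring
  have e2 : (1 / ((3 / 2 : ℝ) + (m : ℝ) / 2 - 1)) = 1 / t := by
    rw [ht]; congr 1; ring
  have e3 : ((4 / 3 * (1 - η)) ^ ((3 / 2 : ℝ) - 1)) ^ (1 / t) =
      (4 / 3 : ℝ) ^ (1 / ((m:ℝ) + 1)) * (1 - η) ^ (1 / ((m:ℝ) + 1)) := by
    rw [← Real.rpow_mul (by positivity), ← Real.mul_rpow (by norm_num) hη.le]
    congr 1
    rw [ht]
    field_simp
    norm_num
  have e4 : (3 / 4 : ℝ) ^ (1 / ((m:ℝ) + 1)) * (4 / 3 : ℝ) ^ (1 / ((m:ℝ) + 1)) = 1 := by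
    rw [← Real.mul_rpow (by norm_num) (by norm_num)]
    norm_num
  unfold LTd.bco at hc ⊢
  rw [e1, ← mul_assoc, Real.mul_rpow hJ0 (by positivity), hc, e2, e3]
  calc (3 / 4 : ℝ) ^ (1 / ((m:ℝ) + 1)) * LTd.Kcl (m + 1) *
        ((4 / 3 : ℝ) ^ (1 / ((m:ℝ) + 1)) * (1 - η) ^ (1 / ((m:ℝ) + 1)))
      = ((3 / 4 : ℝ) ^ (1 / ((m:ℝ) + 1)) * (4 / 3 : ℝ) ^ (1 / ((m:ℝ) + 1))) *
        ((1 - η) ^ (1 / ((m:ℝ) + 1)) * LTd.Kcl (m + 1)) := by ring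
    _ = _ := by rw [e4, one_mul]

end Pool.Agent.L7h65.SC
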