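import Pool.Agent.L7h99.SC.Stm
import Pool.Agent.L7h76.LS.Semi

set_option autoImplicit false

/-!
# Project SC: the part [JJ]
-/

open MeasureTheory Set Filter Topology Real
open scoped ENNReal

namespace Pool.Agent.L7h65.SC

open Pool.Agent.L7h99.LS Pool.Agent.L7h99.SC

theorem g1_sq {s : ℝ} (hs : 0 < s) (u : ℝ) :
    Pool.Agent.L7h76.LS.g1 s u ^ 2 =
      ((4 * π * s)⁻¹ * √(2 * π * s)) * Pool.Agent.L7h76.LS.g1 (s / 2) u := by
  unfold Pool.Agent.L7h76.LS.g1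
  have h1 : (√(4 * π * s))⁻¹ ^ 2 = (4 * π * s)⁻¹ := by
    rw [inv_pow, Real.sq_sqrt (by positivity)]
  have h2 : √(4 * π * (s / 2)) = √(2 * π * s) := by congr 1; ring
  have h3 : √(2 * π * s) * (√(2 * π * s))⁻¹ = 1 := mul_inv_cancel₀ (by positivity)
  have h4 : Real.exp (-(u ^ 2 / (4 * s))) ^ 2 = Real.exp (-(u ^ 2 / (4 * (s / 2)))) := by
    rw [← Real.exp_nat_mul]
    congr 1
    push_cast
    field_simp
  rw [mul_pow, h1, h4, h2]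
  calc (4 * π * s)⁻¹ * Real.exp (-(u ^ 2 / (4 * (s / 2))))
      = (4 * π * s)⁻¹ * (√(2 * π * s) * (√(2 * π * s))⁻¹) *
        Real.exp (-(u ^ 2 / (4 * (s / 2)))) := by rw [h3, mul_one]
    _ = _ := by ring

theorem G_sq {d : ℕ} {s : ℝ} (hs : 0 < s) (z : Fin d → ℝ) :
    G s z ^ 2 = ((4 * π * s)⁻¹ * √(2 * π * s)) ^ d * G (s / 2) z := by
  rw [Pool.Agent.L7h76.LS.G_eq, Pool.Agent.L7h76.LS.G_eq, ← Finset.prod_pow,
    Finset.prod_congr rfl (fun i _ => g1_sq hs (z i)), Finset.prod_mul_distrib,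
    Finset.prod_const, Finset.card_univ, Fintype.card_fin]

theorem E_sq {d : ℕ} {s : ℝ} (hs : 0 < s) (x y : Fin d → ℝ) :
    E s x y ^ 2 = ENNReal.ofReal (((4 * π * s)⁻¹ * √(2 * π * s)) ^ d) * E (s / 2) x y := by
  unfold E
  rw [← ENNReal.ofReal_pow (G_nonneg _ _), G_sq hs, ENNReal.ofReal_mul (by positivity)]

/-- [JJ] -/
theorem t_JJ : S_JJ := by
  intro d s₁ s₂ h1 h2 x
  have e1 : ∀ y : Fin d → ℝ, E s₁ x y * E s₂ x y ^ 2 =
      ENNReal.ofReal (((4 * π * s₂)⁻¹ * √(2 * π * s₂)) ^ d) * (E s₁ x y * E (s₂ / 2) y x) := by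
    intro y
    rw [E_sq h2, E_symm (s₂ / 2) x y]
    ring
  simp only [e1]
  rw [lintegral_const_mul' _ _ ENNReal.ofReal_ne_top]
  have e2 : ∫⁻ y : Fin d → ℝ, E s₁ x y * E (s₂ / 2) y x = ENNReal.ofReal (G (s₁ + s₂ / 2) (x - x)) :=
    (Pool.Agent.L7h76.LS.t_SEMI d s₁ (s₂ / 2) h1 (by positivity) x x).1
  rw [e2, ← ENNReal.ofReal_mul (by positivity)]
  congr 1
  have e3 : G (s₁ + s₂ / 2) (x - x) = ((√(4 * π * (s₁ + s₂ / 2)))⁻¹) ^ d := by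
    rw [Pool.Agent.L7h76.LS.G_eq]
    simp [Pool.Agent.L7h76.LS.g1]
  rw [e3, ← mul_pow]
  congr 1
  have e4 : √(16 * π ^ 2 * s₂ * (2 * s₁ + s₂)) =
      (4 * π * s₂) * (√(4 * π * (s₁ + s₂ / 2)) / √(2 * π * s₂)) := by
    rw [← Real.sqrt_div (by positivity), ← Real.sqrt_sq (show 0 ≤ 4 * π * s₂ by positivity),
      ← Real.sqrt_mul (by positivity)]
    congr 1
    field_simp
    ring
  rw [e4, mul_inv (4 * π * s₂) (√(4 * π * (s₁ + s₂ / 2)) / √(2 * π * s₂)), inv_div]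
  ring

end Pool.Agent.L7h65.SC
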