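import Pool.Agent.L7h99.SC.Stm
import Pool.Agent.L7h99.LS.Chain
import Pool.Agent.L7h76.LS.Semi

set_option autoImplicit false

/-!
# Project SC: the parts [MIX], [HOL], [SCH]
-/

open MeasureTheory Set Filter Topology Real
open scoped ENNReal

namespace Pool.Agent.L7h65.SC

open Pool.Agent.L7h99.LS Pool.Agent.L7h99.SC

/-- AM-GM for chains. -/
theorem T_amgm2 (l : ℕ) : ∀ (X : Type) (m : MeasurableSpace X) (μ : Measure X)
    (u v : X → ℝ≥0∞) (κ₁ κ₂ : X → X → ℝ≥0∞), Measurable u → Measurable v →
    Measurable (Function.uncurry κ₁) → Measurable (Function.uncurry κ₂) →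
    2 * T l X m μ (fun x => u x * v x) (fun x y => κ₁ x y * κ₂ x y) ≤
      T l X m μ (fun x => u x ^ 2) (fun x y => κ₁ x y ^ 2) +
        T l X m μ (fun x => v x ^ 2) (fun x y => κ₂ x y ^ 2) := by
  induction l with
  | zero =>
    intro X m μ u v κ₁ κ₂ hu hv h₁ h₂
    have hk1 : Measurable fun x => κ₁ x x := h₁.comp (measurable_id.prodMk measurable_id)
    have hk2 : Measurable fun x => κ₂ x x := h₂.comp (measurable_id.prodMk measurable_id)
    simp only [T]
    have m1 : Measurable fun x => u x * v x * (κ₁ x x * κ₂ x x) := (hu.mul hv).mul (hk1.mul hk2)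
    have m2 : Measurable fun x => u x ^ 2 * κ₁ x x ^ 2 := (hu.pow_const 2).mul (hk1.pow_const 2)
    rw [← lintegral_const_mul _ m1, ← lintegral_add_left m2]
    refine lintegral_mono fun x => ?_
    have h := two_mul_le (u x * κ₁ x x) (v x * κ₂ x x)
    calc 2 * (u x * v x * (κ₁ x x * κ₂ x x)) = 2 * (u x * κ₁ x x * (v x * κ₂ x x)) := by ring
      _ ≤ _ := h
      _ = _ := by ring
  | succ l ih =>
    intro X m μ u v κ₁ κ₂ hu hv h₁ h₂
    have a1 : Measurable fun p : X × X => u p.1 * κ₁ p.1 p.2 * u p.2 :=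
      ((hu.comp measurable_fst).mul h₁).mul (hu.comp measurable_snd)
    have a2 : Measurable fun p : X × X => v p.1 * κ₂ p.1 p.2 * v p.2 :=
      ((hv.comp measurable_fst).mul h₂).mul (hv.comp measurable_snd)
    have a3 : Measurable (Function.uncurry fun p q : X × X => κ₁ p.2 q.1) :=
      h₁.comp ((measurable_snd.comp measurable_fst).prodMk (measurable_fst.comp measurable_snd))
    have a4 : Measurable (Function.uncurry fun p q : X × X => κ₂ p.2 q.1) :=
      h₂.comp ((measurable_snd.comp measurable_fst).prodMk (measurable_fst.comp measurable_snd))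
    have h := ih (X × X) (m.prod m) (μ.prod μ) _ _ _ _ a1 a2 a3 a4
    simp only [T]
    refine le_trans (le_of_eq ?_) (h.trans (le_of_eq ?_))
    · congr 2
      funext p
      ring
    · congr 1
      · congr 1
        funext p
        ring
      · congr 1
        funext p
        ring

theorem half_sq (a : ℝ≥0∞) : (a ^ (1 / 2 : ℝ)) ^ 2 = a := by
  rw [← ENNReal.rpow_natCast, ← ENNReal.rpow_mul]
  norm_num

/-- Halving the chain, two kernels. -/
theorem T_step (l : ℕ) (X : Type) (m : MeasurableSpace X) (μ : Measure X) [SFinite μ]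
    (a e : X → X → ℝ≥0∞) (ha : Measurable (Function.uncurry a))
    (he : Measurable (Function.uncurry e)) :
    T (l + 1) X m μ (fun _ => 1) (fun x y => a x y ^ (1 / 2 : ℝ) * e x y ^ (1 / 2 : ℝ)) ≤
      T l X m μ (fun _ => 1) (fun x y => ∫⁻ z, a x z * e z y ∂μ) := by
  have a1 : Measurable fun p : X × X => a p.1 p.2 ^ (1 / 2 : ℝ) := ha.pow_const _
  have a2 : Measurable fun p : X × X => e p.1 p.2 ^ (1 / 2 : ℝ) := he.pow_const _
  have a3 : Measurable (Function.uncurry fun p q : X × X => e p.2 q.1 ^ (1 / 2 : ℝ)) :=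
    a2.comp ((measurable_snd.comp measurable_fst).prodMk (measurable_fst.comp measurable_snd))
  have a4 : Measurable (Function.uncurry fun p q : X × X => a p.2 q.1 ^ (1 / 2 : ℝ)) :=
    a1.comp ((measurable_snd.comp measurable_fst).prodMk (measurable_fst.comp measurable_snd))
  have h := T_amgm2 l (X × X) (m.prod m) (μ.prod μ) _ _ _ _ a1 a2 a3 a4
  simp only [half_sq] at h
  have t1 := T_marg l X X m m μ μ (fun _ => 1) a e measurable_const ha he
  have t2 := T_marg' l X X m m μ μ (fun _ => 1) e a measurable_const he ha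
  simp only [one_mul] at t1 t2
  rw [t1, t2, ← two_mul] at h
  refine (ENNReal.mul_le_mul_iff_right (by norm_num) (by norm_num)).1 (le_trans (le_of_eq ?_) h)
  simp only [T, one_mul, mul_one]
  congr 2
  funext p q
  ring

theorem m_comp {X Y Z : Type} [MeasurableSpace X] [MeasurableSpace Y] [MeasurableSpace Z]
    {k : X → Y → ℝ≥0∞} (hk : Measurable (Function.uncurry k)) {f : Z → X} {g : Z → Y}
    (hf : Measurable f) (hg : Measurable g) : Measurable fun z => k (f z) (g z) :=
  hk.comp (hf.prodMk hg)

theorem semi_le {d : ℕ} (Ω : Set (Fin d → ℝ)) {τ σ : ℝ} (hτ : 0 < τ) (hσ : 0 < σ)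
    (x y : Fin d → ℝ) : ∫⁻ z in Ω, E τ x z * E σ z y ≤ E (τ + σ) x y := by
  refine (setLIntegral_le_lintegral _ _).trans (le_of_eq ?_)
  exact (Pool.Agent.L7h76.LS.t_SEMI d τ σ hτ hσ x y).1

/-- [MIX] -/
theorem t_MIX : S_MIX := by
  intro d Ω j
  induction j with
  | zero =>
    intro τ hτ A hA
    have h := T_step 0 _ _ (volume.restrict Ω) A (E τ) hA (E_meas τ)
    have e1 : (((2:ℝ) ^ (0 + 1))⁻¹) = 1 / 2 := by norm_num
    have e2 : (1 - (1 / 2 : ℝ)) = 1 / 2 := by norm_num
    have e3 : ((2:ℝ) ^ (0 + 1) - 1) * τ = τ := by norm_num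
    rw [e1, e2, e3]
    refine h.trans (le_of_eq ?_)
    simp only [T, one_mul]
    refine lintegral_congr fun x => lintegral_congr fun y => ?_
    rw [E_symm]
  | succ j ih =>
    intro τ hτ A hA
    set θ : ℝ := ((2:ℝ) ^ (j + 1))⁻¹ with hθ
    have hθ0 : 0 < θ := by positivity
    have hθ1 : θ ≤ 1 := inv_le_one_of_one_le₀ (one_le_pow₀ (by norm_num))
    have e1 : ((2:ℝ) ^ (j + 1 + 1))⁻¹ = θ / 2 := by
      rw [hθ, pow_succ (2:ℝ) (j + 1), mul_inv]
      ring
    rw [e1]
    have ha : Measurable (Function.uncurry fun x y => A x y ^ θ * E τ x y ^ (1 - θ)) :=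
      (hA.pow_const _).mul ((E_meas τ).pow_const _)
    have h := T_step (j + 1) _ _ (volume.restrict Ω)
      (fun x y => A x y ^ θ * E τ x y ^ (1 - θ)) (E τ) ha (E_meas τ)
    have e2 : (fun x y : Fin d → ℝ => (A x y ^ θ * E τ x y ^ (1 - θ)) ^ (1 / 2 : ℝ) *
        E τ x y ^ (1 / 2 : ℝ)) = fun x y => A x y ^ (θ / 2) * E τ x y ^ (1 - θ / 2) := by
      funext x y
      rw [ENNReal.mul_rpow_of_nonneg _ _ (by norm_num), ← ENNReal.rpow_mul, ← ENNReal.rpow_mul,
        mul_assoc, ← ENNReal.rpow_add_of_nonneg _ _ (by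
          have : 0 ≤ 1 - θ := by linarith
          positivity) (by norm_num)]
      congr 2
      · ring
      · ring
    rw [e2] at h
    refine h.trans ?_
    have hA' : Measurable (Function.uncurry fun x y : Fin d → ℝ =>
        ∫⁻ z in Ω, A x z * E τ z y) := by
      refine Measurable.lintegral_prod_right' (f := fun q : ((Fin d → ℝ) × (Fin d → ℝ)) ×
        (Fin d → ℝ) => A q.1.1 q.2 * E τ q.2 q.1.2) ?_
      exact (m_comp hA (measurable_fst.comp measurable_fst) measurable_snd).mul
        (m_comp (E_meas τ) measurable_snd (measurable_snd.comp measurable_fst))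
    have hk : ∀ x y : Fin d → ℝ, ∫⁻ z in Ω, (A x z ^ θ * E τ x z ^ (1 - θ)) * E τ z y ≤
        (∫⁻ z in Ω, A x z * E τ z y) ^ θ * E (2 * τ) x y ^ (1 - θ) := by
      intro x y
      have hAx : Measurable fun z => A x z := m_comp hA measurable_const measurable_id
      have hEx : Measurable fun z => E τ x z := m_comp (E_meas τ) measurable_const measurable_id
      have hEy : Measurable fun z => E τ z y := m_comp (E_meas τ) measurable_id measurable_const
      have h1 : ∫⁻ z in Ω, (A x z ^ θ * E τ x z ^ (1 - θ)) * E τ z y =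
          ∫⁻ z in Ω, (A x z * E τ z y) ^ θ * (E τ x z * E τ z y) ^ (1 - θ) := by
        refine lintegral_congr fun z => ?_
        rw [ENNReal.mul_rpow_of_nonneg _ _ hθ0.le, ENNReal.mul_rpow_of_nonneg _ _ (by linarith)]
        have h2 : E τ z y = E τ z y ^ θ * E τ z y ^ (1 - θ) := by
          rw [← ENNReal.rpow_add_of_nonneg _ _ hθ0.le (by linarith)]
          simp
        calc A x z ^ θ * E τ x z ^ (1 - θ) * E τ z y =
            A x z ^ θ * E τ x z ^ (1 - θ) * (E τ z y ^ θ * E τ z y ^ (1 - θ)) := by rw [← h2]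
          _ = _ := by ring
      rw [h1]
      refine (ENNReal.lintegral_mul_norm_pow_le (hAx.mul hEy).aemeasurable
        (hEx.mul hEy).aemeasurable hθ0.le (by linarith) (by ring)).trans ?_
      refine mul_le_mul' le_rfl (ENNReal.rpow_le_rpow ?_ (by linarith))
      rw [two_mul]
      exact semi_le Ω hτ hτ x y
    refine (T_mono (j + 1) _ _ (volume.restrict Ω) _ _ _ _ (fun x => le_rfl) hk).trans ?_
    refine (ih (2 * τ) (by positivity) _ hA').trans ?_
    refine lintegral_mono fun x => ?_
    have hp : (0:ℝ) < 2 ^ (j + 1) - 1 := by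
      have : (1:ℝ) < 2 ^ (j + 1) := one_lt_pow₀ (by norm_num) (by omega)
      linarith
    have hAx : Measurable fun z => A x z := m_comp hA measurable_const measurable_id
    calc ∫⁻ y in Ω, (∫⁻ z in Ω, A x z * E τ z y) * E ((2 ^ (j + 1) - 1) * (2 * τ)) x y
        = ∫⁻ y in Ω, ∫⁻ z in Ω, A x z * E τ z y * E ((2 ^ (j + 1) - 1) * (2 * τ)) x y := by
          refine lintegral_congr fun y => ?_
          rw [lintegral_mul_const]
          exact hAx.mul (m_comp (E_meas τ) measurable_id measurable_const)
      _ = ∫⁻ z in Ω, ∫⁻ y in Ω, A x z * E τ z y * E ((2 ^ (j + 1) - 1) * (2 * τ)) x y := by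
          rw [lintegral_lintegral_swap]
          refine Measurable.aemeasurable ?_
          exact ((m_comp hA measurable_const measurable_snd).mul
            (m_comp (E_meas τ) measurable_snd measurable_fst)).mul
            (m_comp (E_meas _) measurable_const measurable_fst)
      _ ≤ ∫⁻ z in Ω, A x z * E ((2 ^ (j + 1 + 1) - 1) * τ) x z := by
          refine lintegral_mono fun z => ?_
          calc ∫⁻ y in Ω, A x z * E τ z y * E ((2 ^ (j + 1) - 1) * (2 * τ)) x y
              = A x z * ∫⁻ y in Ω, E τ z y * E ((2 ^ (j + 1) - 1) * (2 * τ)) y x := by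
                rw [← lintegral_const_mul]
                · refine lintegral_congr fun y => ?_
                  rw [E_symm _ x y]
                  ring
                · exact (m_comp (E_meas τ) measurable_const measurable_id).mul
                    (m_comp (E_meas _) measurable_id measurable_const)
            _ ≤ A x z * E (τ + (2 ^ (j + 1) - 1) * (2 * τ)) z x := by
                gcongr
                exact semi_le Ω hτ (by positivity) z x
            _ = _ := by
                rw [E_symm]
                congr 2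
                rw [pow_succ (2:ℝ) (j + 1)]
                ring

theorem It_meas {X : Type} [MeasurableSpace X] (μ : Measure X) [SFinite μ]
    {k : X → X → ℝ≥0∞} (hk : Measurable (Function.uncurry k)) (i : ℕ) :
    Measurable (Function.uncurry (It μ i k)) := by
  induction i with
  | zero => exact hk
  | succ i ih =>
    refine Measurable.lintegral_prod_right' (f := fun q : (X × X) × X =>
      It μ i k q.1.1 q.2 * It μ i k q.2 q.1.2) ?_
    exact (m_comp ih (measurable_fst.comp measurable_fst) measurable_snd).mul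
      (m_comp ih measurable_snd (measurable_snd.comp measurable_fst))

/-- [HOL] -/
theorem t_HOL : S_HOL := by
  intro d Ω θ τ hθ0 hθ1 hτ k κ hk hκ hle i
  induction i with
  | zero =>
    intro x y
    simpa [It] using hle x y
  | succ i ih =>
    intro x y
    have k1 : Measurable fun z => It (volume.restrict Ω) i k x z :=
      m_comp (It_meas (volume.restrict Ω) hk i) measurable_const measurable_id
    have k2 : Measurable fun z => It (volume.restrict Ω) i k z y :=
      m_comp (It_meas (volume.restrict Ω) hk i) measurable_id measurable_const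
    have e1 : Measurable fun z => E (2 ^ i * τ) x z :=
      m_comp (E_meas _) measurable_const measurable_id
    have e2 : Measurable fun z => E (2 ^ i * τ) z y :=
      m_comp (E_meas _) measurable_id measurable_const
    calc It (volume.restrict Ω) (i + 1) κ x y
        = ∫⁻ z in Ω, It (volume.restrict Ω) i κ x z * It (volume.restrict Ω) i κ z y := rfl
      _ ≤ ∫⁻ z in Ω, (It (volume.restrict Ω) i k x z * It (volume.restrict Ω) i k z y) ^ θ *
            (E (2 ^ i * τ) x z * E (2 ^ i * τ) z y) ^ (1 - θ) := by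
          refine lintegral_mono fun z => ?_
          refine (mul_le_mul' (ih x z) (ih z y)).trans (le_of_eq ?_)
          rw [ENNReal.mul_rpow_of_nonneg _ _ hθ0, ENNReal.mul_rpow_of_nonneg _ _ (by linarith)]
          ring
      _ ≤ _ := ENNReal.lintegral_mul_norm_pow_le (k1.mul k2).aemeasurable
          (e1.mul e2).aemeasurable hθ0 (by linarith) (by ring)
      _ ≤ It (volume.restrict Ω) (i + 1) k x y ^ θ * E (2 ^ (i + 1) * τ) x y ^ (1 - θ) := by
          refine mul_le_mul' le_rfl ?_
          refine ENNReal.rpow_le_rpow ?_ (by linarith)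
          refine (semi_le Ω (by positivity) (by positivity) x y).trans (le_of_eq ?_)
          congr 1
          rw [pow_succ]
          ring

/-- [SCH] -/
theorem t_SCH : S_SCH := by
  intro X m μ _ k ψ hk hs hψ hpos hle i
  -- the properties pass to the iterates
  have key : ∀ i, (∀ x y, It μ i k x y = It μ i k y x) ∧
      ∀ x, ∫⁻ y, It μ i k x y * ENNReal.ofReal (ψ y) ∂μ ≤ ENNReal.ofReal (ψ x) := by
    intro i
    induction i with
    | zero => exact ⟨hs, hle⟩
    | succ i ih =>
      obtain ⟨ih1, ih2⟩ := ih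
      have hm : Measurable fun z : X × X => It μ i k z.1 z.2 := It_meas μ hk i
      refine ⟨fun x y => ?_, fun x => ?_⟩
      · show ∫⁻ z, It μ i k x z * It μ i k z y ∂μ = ∫⁻ z, It μ i k y z * It μ i k z x ∂μ
        refine lintegral_congr fun z => ?_
        rw [ih1 x z, ih1 z y]
        ring
      · show ∫⁻ y, (∫⁻ z, It μ i k x z * It μ i k z y ∂μ) * ENNReal.ofReal (ψ y) ∂μ ≤ _
        have hψ' : Measurable fun y => ENNReal.ofReal (ψ y) := hψ.ennreal_ofReal
        have hx : Measurable fun z => It μ i k x z := hm.comp (measurable_const.prodMk measurable_id)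
        calc ∫⁻ y, (∫⁻ z, It μ i k x z * It μ i k z y ∂μ) * ENNReal.ofReal (ψ y) ∂μ
            = ∫⁻ y, ∫⁻ z, It μ i k x z * It μ i k z y * ENNReal.ofReal (ψ y) ∂μ ∂μ := by
              refine lintegral_congr fun y => ?_
              rw [lintegral_mul_const]
              exact hx.mul (hm.comp (measurable_id.prodMk measurable_const))
          _ = ∫⁻ z, ∫⁻ y, It μ i k x z * It μ i k z y * ENNReal.ofReal (ψ y) ∂μ ∂μ := by
              rw [lintegral_lintegral_swap]
              refine Measurable.aemeasurable ?_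
              exact ((hx.comp measurable_snd).mul (hm.comp measurable_swap)).mul
                (hψ'.comp measurable_fst)
          _ = ∫⁻ z, It μ i k x z * ∫⁻ y, It μ i k z y * ENNReal.ofReal (ψ y) ∂μ ∂μ := by
              refine lintegral_congr fun z => ?_
              rw [← lintegral_const_mul]
              · refine lintegral_congr fun y => ?_
                ring
              · exact (hm.comp (measurable_const.prodMk measurable_id)).mul hψ'
          _ ≤ ∫⁻ z, It μ i k x z * ENNReal.ofReal (ψ z) ∂μ :=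
              lintegral_mono fun z => mul_le_mul' le_rfl (ih2 z)
          _ ≤ _ := ih2 x
  obtain ⟨k1, k2⟩ := key i
  have hm : Measurable fun z : X × X => It μ i k z.1 z.2 := It_meas μ hk i
  have hψ' : Measurable fun y => ENNReal.ofReal (ψ y) := hψ.ennreal_ofReal
  set D := ∫⁻ x, ∫⁻ y, It μ i k x y * ENNReal.ofReal (ψ y) * (ENNReal.ofReal (ψ x))⁻¹ ∂μ ∂μ with hD
  have hD1 : D ≤ μ univ := by
    calc D = ∫⁻ x, (∫⁻ y, It μ i k x y * ENNReal.ofReal (ψ y) ∂μ) * (ENNReal.ofReal (ψ x))⁻¹ ∂μ := by
          refine lintegral_congr fun x => ?_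
          rw [lintegral_mul_const]
          exact (hm.comp (measurable_const.prodMk measurable_id)).mul hψ'
      _ ≤ ∫⁻ _x, 1 ∂μ := by
          refine lintegral_mono fun x => ?_
          refine (mul_le_mul' (k2 x) le_rfl).trans (le_of_eq ?_)
          refine ENNReal.mul_inv_cancel ?_ ENNReal.ofReal_ne_top
          simpa using hpos x
      _ = μ univ := by simp
  have hD2 : D = ∫⁻ x, ∫⁻ y, It μ i k x y * ENNReal.ofReal (ψ x) * (ENNReal.ofReal (ψ y))⁻¹ ∂μ ∂μ := by
    rw [hD, lintegral_lintegral_swap]
    · refine lintegral_congr fun x => lintegral_congr fun y => ?_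
      rw [k1 y x]
    · exact ((hm.mul (hψ'.comp measurable_snd)).mul (hψ'.comp measurable_fst).inv).aemeasurable
  have h2 : 2 * ∫⁻ x, ∫⁻ y, It μ i k x y ∂μ ∂μ ≤ D + D := by
    have m1 : ∀ x, Measurable fun y => It μ i k x y := fun x =>
      hm.comp (measurable_const.prodMk measurable_id)
    have m2 : Measurable fun x => ∫⁻ y, It μ i k x y ∂μ :=
      Measurable.lintegral_prod_right' hm
    have m3 : ∀ x, Measurable fun y => It μ i k x y * ENNReal.ofReal (ψ y) *
        (ENNReal.ofReal (ψ x))⁻¹ := fun x => ((m1 x).mul hψ').mul_const _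
    have m4 : Measurable fun x => ∫⁻ y, It μ i k x y * ENNReal.ofReal (ψ y) *
        (ENNReal.ofReal (ψ x))⁻¹ ∂μ := Measurable.lintegral_prod_right'
          (f := fun z : X × X => It μ i k z.1 z.2 * ENNReal.ofReal (ψ z.2) *
            (ENNReal.ofReal (ψ z.1))⁻¹)
          ((hm.mul (hψ'.comp measurable_snd)).mul (hψ'.comp measurable_fst).inv)
    rw [← lintegral_const_mul _ m2]
    nth_rw 2 [hD2]
    rw [hD, ← lintegral_add_left m4]
    refine lintegral_mono fun x => ?_
    rw [← lintegral_const_mul _ (m1 x), ← lintegral_add_left (m3 x)]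
    refine lintegral_mono fun y => ?_
    have hr : (2:ℝ≥0∞) ≤ ENNReal.ofReal (ψ y) * (ENNReal.ofReal (ψ x))⁻¹ +
        ENNReal.ofReal (ψ x) * (ENNReal.ofReal (ψ y))⁻¹ := by
      rw [← ENNReal.ofReal_inv_of_pos (hpos x), ← ENNReal.ofReal_inv_of_pos (hpos y),
        ← ENNReal.ofReal_mul (hpos y).le, ← ENNReal.ofReal_mul (hpos x).le,
        ← ENNReal.ofReal_add (mul_nonneg (hpos y).le (inv_nonneg.2 (hpos x).le))
          (mul_nonneg (hpos x).le (inv_nonneg.2 (hpos y).le))]
      rw [show (2:ℝ≥0∞) = ENNReal.ofReal 2 by simp]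
      refine ENNReal.ofReal_le_ofReal ?_
      have hx := hpos x
      have hy := hpos y
      rw [← div_eq_mul_inv, ← div_eq_mul_inv, div_add_div _ _ hx.ne' hy.ne', le_div_iff₀ (by positivity)]
      nlinarith [sq_nonneg (ψ x - ψ y)]
    calc 2 * It μ i k x y = It μ i k x y * 2 := by ring
      _ ≤ It μ i k x y * (ENNReal.ofReal (ψ y) * (ENNReal.ofReal (ψ x))⁻¹ +
        ENNReal.ofReal (ψ x) * (ENNReal.ofReal (ψ y))⁻¹) := mul_le_mul' le_rfl hr
      _ = _ := by ring
  have h3 : ∫⁻ x, ∫⁻ y, It μ i k x y ∂μ ∂μ ≤ D := by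
    rw [← two_mul] at h2
    exact (ENNReal.mul_le_mul_iff_right (by norm_num) (by norm_num)).1 h2
  exact h3.trans hD1

end Pool.Agent.L7h65.SC
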