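import Pool.Agent.L7h99.SC.Stm

set_option autoImplicit false

/-!
# Project SC: the part [SMK] from [SM0]
-/

open MeasureTheory Set Filter Topology Real
open scoped ENNReal

namespace Pool.Agent.L7h65.SC

open Pool.Agent.L7h99.LS Pool.Agent.L7h99.SC

/-- Permutation of the coordinates. -/
noncomputable def PP {n : ℕ} (e : Equiv.Perm (Fin n)) : (Fin n → ℝ) →L[ℝ] (Fin n → ℝ) :=
  ContinuousLinearMap.pi fun i => ContinuousLinearMap.proj (e i)

theorem PP_apply {n : ℕ} (e : Equiv.Perm (Fin n)) (x : Fin n → ℝ) (i : Fin n) :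
    PP e x i = x (e i) := rfl

/-- as a homeomorphism -/
noncomputable def PH {n : ℕ} (e : Equiv.Perm (Fin n)) : (Fin n → ℝ) ≃ₜ (Fin n → ℝ) where
  toFun := PP e
  invFun := PP e.symm
  left_inv x := by funext i; simp [PP_apply]
  right_inv x := by funext i; simp [PP_apply]
  continuous_toFun := (PP e).continuous
  continuous_invFun := (PP e.symm).continuous

theorem PP_mp {n : ℕ} (e : Equiv.Perm (Fin n)) :
    MeasurePreserving (PP e : (Fin n → ℝ) → (Fin n → ℝ)) volume volume := by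
  have h := volume_measurePreserving_piCongrLeft (fun _ : Fin n => ℝ) e.symm
  have e1 : ((MeasurableEquiv.piCongrLeft (fun _ : Fin n => ℝ) e.symm : (Fin n → ℝ) ≃ᵐ (Fin n → ℝ)) :
      (Fin n → ℝ) → (Fin n → ℝ)) = PP e := by
    funext x i
    rw [PP_apply]
    have := MeasurableEquiv.piCongrLeft_apply_apply (β := fun _ : Fin n => ℝ) (e := e.symm) x (e i)
    simpa using this
  rw [e1] at h
  exact h

theorem PP_int {n : ℕ} (e : Equiv.Perm (Fin n)) (g : (Fin n → ℝ) → ℝ) :
    ∫ x, g (PP e x) = ∫ x, g x :=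
  (PP_mp e).integral_comp (PH e).measurableEmbedding g

theorem PP_single {n : ℕ} (e : Equiv.Perm (Fin n)) (j : Fin n) :
    PP e (Pi.single j 1) = Pi.single (e.symm j) 1 := by
  funext i
  rw [PP_apply, Pi.single_apply, Pi.single_apply]
  have : (e i = j) ↔ (i = e.symm j) := by
    rw [Equiv.eq_symm_apply]
  simp only [this]

theorem pd_PP {n : ℕ} (e : Equiv.Perm (Fin n)) (g : (Fin n → ℝ) → ℝ) (hg : Differentiable ℝ g)
    (j : Fin n) (x : Fin n → ℝ) :
    LTd.pd j (fun y => g (PP e y)) x = LTd.pd (e.symm j) g (PP e x) := by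
  unfold LTd.pd
  have h : HasFDerivAt (fun y => g (PP e y)) ((fderiv ℝ g (PP e x)).comp (PP e)) x :=
    (hg (PP e x)).hasFDerivAt.comp x (PP e).hasFDerivAt
  rw [h.fderiv, ContinuousLinearMap.comp_apply, PP_single]

/-- [SMK] -/
theorem t_SMK : S_SM0 → S_SMK := by
  rintro ⟨C₀, hC, H⟩
  refine ⟨C₀, hC, fun ℓ η B hℓ hη hη1 hB m n f k hf hs hG hle => ?_⟩
  set e : Equiv.Perm (Fin (m + 1)) := Equiv.swap 0 k with he
  set F : Fin n → (Fin (m + 1) → ℝ) → ℝ := fun i x => f i (PP e x) with hF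
  have hd : den F = fun x => den f (PP e x) := rfl
  have hdd : Differentiable ℝ (den f) := by
    have : ContDiff ℝ 1 (den f) := by
      unfold den
      exact ContDiff.sum fun i _ => (hf i).pow 2
    exact this.differentiable (by norm_num)
  have h := H ℓ η B hℓ hη hη1 hB m n F (fun i => (hf i).comp (PP e).contDiff)
    (fun i => (hs i).comp_homeomorph (PH e)) ?_ (fun x => hle (PP e x))
  · have e1 : ∫ x, den F x ^ (1 + 2 / ((m:ℝ) + 1)) = ∫ x, den f x ^ (1 + 2 / ((m:ℝ) + 1)) :=
      PP_int e (fun x => den f x ^ (1 + 2 / ((m:ℝ) + 1)))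
    have e2 : ∫ x, |LTd.pd 0 (den F) x| = ∫ x, |LTd.pd k (den f) x| := by
      rw [← PP_int e (fun x => |LTd.pd k (den f) x|)]
      refine integral_congr_ae (Filter.Eventually.of_forall fun x => ?_)
      show |LTd.pd 0 (fun y => den f (PP e y)) x| = _
      rw [pd_PP e (den f) hdd]
      have : e.symm 0 = k := by rw [he, Equiv.symm_swap, Equiv.swap_apply_left]
      rw [this]
    have e3 : ∫ x, den F x = ∫ x, den f x := PP_int e (den f)
    have e4 : kin F = kin f := by
      unfold kin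
      rw [← PP_int e (fun x => ∑ k, ∑ i, LTd.pd k (f i) x ^ 2)]
      refine integral_congr_ae (Filter.Eventually.of_forall fun x => ?_)
      show ∑ k, ∑ i, LTd.pd k (F i) x ^ 2 = ∑ k, ∑ i, LTd.pd k (f i) (PP e x) ^ 2
      rw [← Equiv.sum_comp e.symm (fun j => ∑ i, LTd.pd j (f i) (PP e x) ^ 2)]
      refine Finset.sum_congr rfl fun j _ => Finset.sum_congr rfl fun i _ => ?_
      rw [← pd_PP e (f i) ((hf i).differentiable (by norm_num))]
    rw [e1, e2, e3, e4] at h
    exact h
  · intro v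
    refine le_trans (le_of_eq ?_) (hG v)
    exact PP_int e (fun x => (∑ i, v i * f i x) ^ 2)

end Pool.Agent.L7h65.SC
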